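import Pool.Agent.W_a3c811_h62w.TrI

set_option autoImplicit false

/-! The trace system of a realisation, with the monodromy triple. -/

noncomputable section

set_option linter.unusedSectionVars false

namespace Pool.Agent.H62T

open Module Polynomial Pool.Agent.WeilH_h6 Pool.Agent.WeilH_h6.VarClass Pool.Agent.H62D
  Pool.Agent.H62A Pool.Agent.H79L Pool.Agent.H62X Pool.Agent.H62S

universe u v w

variable {k : Type u} [Field k] {𝒱 : VarClass k} {I : Type} {K : I → Type v} [∀ l, Field (K l)]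
  [∀ l, CharZero (K l)] {W : ∀ l, Weil.{u, v, w} 𝒱 (K l)} {X : Strata W}

/-- The data of a trace system which contains Frobenius, the monodromy operator, the third element
of an `sl2`-triple and a projector. -/
def HasSys {K : I → Type v} [∀ l, Field (K l)] [∀ l, CharZero (K l)] (V : I → Type w)
    [∀ l, AddCommGroup (V l)] [∀ l, Module (K l) (V l)] (φ ν : ∀ l, Module.End (K l) (V l))
    (U : ∀ l, Submodule (K l) (V l)) : Prop :=
  ∃ (A : Type w) (_ : Ring A) (_ : Algebra ℚ A) (T : TS A K V) (f n y g : A),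
    (∀ l, T.ρ l f = φ l) ∧ (∀ l, T.ρ l n = ν l) ∧
    (∀ l, ∃ (s : ℤ → Module.End (K l) (V l)) (P : Finset ℤ), Sl (T.ρ l n) (T.ρ l y) s P) ∧
    (∀ l, T.ρ l g * T.ρ l g = T.ρ l g) ∧ (∀ l, LinearMap.range (T.ρ l g) = U l) ∧
    (∀ l, T.ρ l f * T.ρ l g = T.ρ l g * T.ρ l f) ∧ (∀ l, T.ρ l n * T.ρ l g = T.ρ l g * T.ρ l n)

theorem hasSys_of_zero (hW : Compatible W) (X : Strata W) (hb : ∀ l l', X.betti l = X.betti l')
    (l0 : I)
    (hz : ∀ (p q : ℚ[X]) (_ : Fitting ((X.toLefschetz hW).lapA hW)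
      (aeval ((X.toLefschetz hW).lapA hW) p) (aeval ((X.toLefschetz hW).lapA hW) q)),
        (X.complex.d l0 : Module.End (K l0) (Tot (W l0) X.EY)) *
          MA.val (aeval ((X.toLefschetz hW).lapA hW) p) l0 = 0) (M : X.Motive) (w : ℤ) :
    HasSys M.V M.φ M.ν (fun l => M.deg l w) := by
  have hI : Nonempty I := ⟨l0⟩
  have hK := (X.toLefschetz hW).kunneth hW
  obtain ⟨χ, hχ⟩ := (X.toLefschetz hW).exists_char hW hK
  obtain ⟨P, Q, F⟩ := hχ.exists_fitting hW
  have hb0 : X.complex.betti l0 = χ.rootMultiplicity 0 := eq_of_zero hχ F (hz P Q F)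
  have h0 := fun l' => zero_of_eq hχ F ((hb l' l0).trans hb0)
  have hN : H62A.IsChain X.complex 2 X.eN := ⟨X.motivic_eN hW, X.eN_bidegree,
    fun l x => LinearMap.congr_fun (X.eN_ed l) x⟩
  have hR : (X.toLefschetz hW).Compat (M.toReal hN) := ⟨rfl, M.com_mod⟩
  have hh := quasi_inv F h0
  let T := X.toLefschetz hW
  let R := M.toReal hN
  let G := mkStage R hW hK (T.d3A hW * aeval (T.lapA hW) Q) hh
  choose θ hθ using fun l => exists_desc_f F h0 hR l
  obtain ⟨y, hy⟩ := exists_elem R hW hK (T.d3A hW * aeval (T.lapA hW) Q) hh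
    (T.fA hW * aeval (T.lapA hW) P) θ hθ
  have hs := fun l => sl_real F hR l (hθ l)
  have hfin : ∀ l, Sl ((T2 R hW hK (T.d3A hW * aeval (T.lapA hW) Q) hh).ρ l G.n)
      ((T2 R hW hK (T.d3A hW * aeval (T.lapA hW) Q) hh).ρ l y) (R.ppos l)
      (Finset.univ.image X.complex.pos) := fun l => by
    rw [hy l, stage_n R hW hK (T.d3A hW * aeval (T.lapA hW) Q) hh l]
    exact hs l
  exact ⟨_, _, _, T2 R hW hK (T.d3A hW * aeval (T.lapA hW) Q) hh,
    G.f, G.n, y, G.g w, fun l => stage_f R hW hK _ hh l, fun l => stage_n R hW hK _ hh l,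
    fun l => ⟨R.ppos l, Finset.univ.image X.complex.pos, hfin l⟩, fun l => G.g_idem l w,
    fun l => range_g R hW hK _ hh l w, fun l => G.fg l w, fun l => G.ng l w⟩

end Pool.Agent.H62T
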