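import Pool.Agent.W_MP_a3c811_h79.Lap.Sl2

/-! Powers of the operators of an `sl2`-triple. -/

noncomputable section

set_option linter.unusedSectionVars false

namespace Pool.Agent.H79L

open Module

universe v w

variable {K : Type v} [Field K] [CharZero K] {E : Type w} [AddCommGroup E] [Module K E]
  [FiniteDimensional K E] {N f : Module.End K E} {s : ℤ → Module.End K E} {P : Finset ℤ}

theorem Sl.f_range62 (h : Sl N f s P) (m : ℕ) (x : E) :
    ∃ y, f ((N ^ (m + 1)) x) = (N ^ m) y := by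
  have hs : ∀ p, s p (s p x) = s p x := fun p => LinearMap.congr_fun (h.idem p) x
  have h1 : x = ∑ p ∈ P, s p x := by
    rw [← LinearMap.sum_apply, h.sum]; rfl
  refine ⟨∑ p ∈ P, (N (f (s p x)) - (((m + 1) * (p + m) : ℤ) : K) • s p x), ?_⟩
  conv_lhs => rw [h1]
  rw [map_sum, map_sum, map_sum]
  exact Finset.sum_congr rfl fun p _ => h.f_Npow (hs p) m

theorem Sl.fpow_range62 (h : Sl N f s P) (j : ℕ) (x : E) (i : ℕ) (hi : i ≤ j) :
    ∃ y, (f ^ i) ((N ^ j) x) = (N ^ (j - i)) y := by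
  induction i with
  | zero => exact ⟨x, rfl⟩
  | succ i ih =>
    obtain ⟨y, hy⟩ := ih (by omega)
    obtain ⟨z, hz⟩ := h.f_range62 (j - (i + 1)) y
    refine ⟨z, ?_⟩
    rw [pow_succ', Module.End.mul_apply, hy, ← hz]
    congr 3
    omega

/-- If `f ^ j` kills `N ^ j x`, then `N ^ j x = 0`. -/
theorem Sl.ker_pow62 (h : Sl N f s P) (j : ℕ) {x : E} (hx : (f ^ j) ((N ^ j) x) = 0) :
    (N ^ j) x = 0 := by
  have key : ∀ i ≤ j, (f ^ i) ((N ^ j) x) = 0 → (N ^ j) x = 0 := by
    intro i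
    induction i with
    | zero => exact fun _ h0 => h0
    | succ i ih =>
      intro hi h0
      refine ih (by omega) ?_
      obtain ⟨y, hy⟩ := h.fpow_range62 j x i (by omega)
      rw [pow_succ', Module.End.mul_apply, hy] at h0
      rw [hy]
      have e : j - i = (j - (i + 1)) + 1 := by omega
      rw [e, pow_succ', Module.End.mul_apply] at h0 ⊢
      exact h.ker_f _ h0
  exact key j le_rfl hx

/-- If `N ^ j` kills `f ^ j x`, then `f ^ j x = 0`. -/
theorem Sl.ker_pow62' (h : Sl N f s P) (j : ℕ) {x : E} (hx : (N ^ j) ((f ^ j) x) = 0) :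
    (f ^ j) x = 0 := h.symm.ker_pow62 j hx

end Pool.Agent.H79L
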